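import Pool.Agent.H77.BC.Targets

/-!
# MP_9d0bb7_lc, board bcp_modules, row MSA
-/

set_option autoImplicit false

open Set Matrix

namespace Pool.Agent.H69.BCP

open Pool.Agent.H77.BC

theorem pf_MSA {M : Type} (U : RU M) (hA : RKA U) (hV : RNV U) (hK : RKS U) (hL : RGL U)
    (hR : REC U) (hC : COM) (hS : CMS) (hT : SLA) : MSA U := by
  intro K _ _ _ _ k hk hMT H hD hr
  by_contra hcon
  push Not at hcon
  obtain ⟨hDr, hDa, hle⟩ := hR (K := K) (k + 1) H hD
  obtain ⟨f, hf⟩ : ∃ f, U.R (univ : Set K) = f := ⟨_, rfl⟩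
  have hf1 : 1 ≤ f := by
    rw [← hf]
    exact (hK (K := K)).1
  rw [hf] at hr hcon hle
  obtain ⟨a, ha⟩ : ∃ a, U.R (AA (k := k + 1) H : Set (Fin (k + 1) → K)) = a := ⟨_, rfl⟩
  obtain ⟨b, hb⟩ : ∃ b, U.R (rho (k := k + 1) H : Set (GL (Fin (k + 1)) K)) = b := ⟨_, rfl⟩
  obtain ⟨c, hc⟩ : ∃ c, U.R (H : Set (GL (Fin (k + 2)) K)) = c := ⟨_, rfl⟩
  have hle' : c ≤ b + a + (k + 1 + 1) * f := by
    rw [← ha, ← hb, ← hc]
    exact hle
  rw [hc] at hr
  rw [ha] at hcon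
  have hSL : SLle (rho (k := k + 1) H) := by
    refine hMT _ hDr ?_
    rw [hf, hb]
    nlinarith
  have hst : ∀ (i j : Fin (k + 1)) (t : K), i ≠ j → ∀ φ ∈ AA (k := k + 1) H,
      φ ᵥ* transvection i j t ∈ AA (k := k + 1) H := by
    intro i j t hij φ hφ
    obtain ⟨s, s', h1, h2, h3⟩ := hS (K := K) i j t hij
    have h4 := hC H s s' (hSL s h1) (hSL s' h2) φ hφ
    rw [h3] at h4
    exact h4
  rcases hT (K := K) (k := k + 1) (by omega) (AA (k := k + 1) H) hst with h | h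
  · have h0 : a = 0 := by
      rw [← ha, h]
      have hfin : ((⊥ : AddSubgroup (Fin (k + 1) → K)) : Set (Fin (k + 1) → K)) = {0} := rfl
      rw [hfin]
      exact (hA.fin (D_singleton _) (singleton_nonempty _)).2 (finite_singleton _)
    have hb2 : b ≤ (k + 1) * (k + 1) * f := by
      rw [← hb, ← hf, ← hL (K := K) (k + 1)]
      exact hA.mono hDr Ful.full ⟨1, (rho (k := k + 1) H).one_mem⟩ (subset_univ _)
    nlinarith
  · have h1 : a = (k + 1) * f := by
      rw [← ha, h, ← hf]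
      have := (hV (K := K) (k + 1) 0).1
      rw [← this]
      rfl
    omega

end Pool.Agent.H69.BCP
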