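import Pool.Agent.H77.BC.Targets

/-!
# MP_9d0bb7_lc, board bcp_modules, row RGL: the rank of the general linear group
-/

set_option autoImplicit false

open Set Matrix

namespace Pool.Agent.H69.BCP

open Pool.Agent.H77.BC

/-- invertible matrices with a given first column -/
theorem exists_col {K : Type} [Field K] {k : ℕ} (v : Fin (k + 1) → K) (hv : v ≠ 0) :
    ∃ g : GL (Fin (k + 1)) K, (g.val : Matrix _ _ K) *ᵥ e0 = v := by
  obtain ⟨i, hi⟩ : ∃ i, v i ≠ 0 := by
    by_contra hcon
    push Not at hcon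
    exact hv (funext hcon)
  obtain ⟨σ, hσ⟩ : ∃ σ : Equiv.Perm (Fin (k + 1)), σ = Equiv.swap 0 i := ⟨_, rfl⟩
  have hdet : (((1 : Matrix (Fin (k + 1)) (Fin (k + 1)) K).updateCol 0
      (fun j => v (σ j))).submatrix σ id).det ≠ 0 := by
    rw [Matrix.det_permute, ← Matrix.cramer_apply, Matrix.cramer_one, Module.End.one_apply, hσ,
      Equiv.swap_apply_left]
    refine mul_ne_zero ?_ hi
    rcases Int.units_eq_one_or (Equiv.Perm.sign (Equiv.swap (0 : Fin (k + 1)) i)) with h | h
    · rw [h]; simp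
    · rw [h]; simp
  refine ⟨Matrix.GeneralLinearGroup.mkOfDetNeZero _ hdet, ?_⟩
  funext j
  change ((((1 : Matrix (Fin (k + 1)) (Fin (k + 1)) K).updateCol 0
      (fun j => v (σ j))).submatrix σ id) *ᵥ e0) j = v j
  rw [e0, Matrix.mulVec_single_one]
  change ((1 : Matrix (Fin (k + 1)) (Fin (k + 1)) K).updateCol 0
      (fun j => v (σ j))) (σ j) 0 = v j
  rw [Matrix.updateCol_self, hσ, Equiv.swap_apply_self]

theorem blm_e0 {K : Type} [Field K] {k : ℕ} (a : K) (φ : Fin k → K) (B : Matrix (Fin k) (Fin k) K) :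
    blm a φ B *ᵥ e0 = Pi.single 0 a := by
  funext i
  rw [e0, Matrix.mulVec_single_one]
  refine Fin.cases ?_ (fun i => ?_) i
  · simp
  · simp

theorem pf_RGL {M : Type} (U : RU M) (hA : RKA U) (hB : RKB U) (hV : RNV U) (hK : RKS U) :
    RGL U := by
  intro K _ _ _ _ k
  induction k with
  | zero =>
    have hfin : (univ : Set (GL (Fin 0) K)).Finite := by
      refine Set.Subsingleton.finite ?_
      intro x _ y _
      apply Units.ext
      ext i
      exact i.elim0
    rw [(hA.fin Ful.full ⟨1, mem_univ _⟩).2 hfin]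
    simp
  | succ k ih =>
    have hDf : DFn U (fun g : GL (Fin (k + 1)) K => (g.val : Matrix _ _ K) *ᵥ e0) :=
      DFn_mulVec DFn_val (DFn_const _)
    have him : (fun g : GL (Fin (k + 1)) K => (g.val : Matrix _ _ K) *ᵥ e0) '' univ =
        {x : Fin (k + 1) → K | x ≠ 0} := by
      ext x
      constructor
      · rintro ⟨g, -, rfl⟩
        intro h0
        have h1 : (g⁻¹).val *ᵥ ((g.val : Matrix _ _ K) *ᵥ e0) = e0 := by
          rw [mulVec_mulVec, ← Units.val_mul, inv_mul_cancel, Units.val_one, one_mulVec]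
        have h0' : (g.val : Matrix _ _ K) *ᵥ e0 = 0 := h0
        rw [h0', mulVec_zero] at h1
        have h2 := congrFun h1 0
        simp [e0] at h2
      · intro hx
        obtain ⟨g, hg⟩ := exists_col x hx
        exact ⟨g, mem_univ _, hg⟩
    have hfib : ∀ b ∈ (fun g : GL (Fin (k + 1)) K => (g.val : Matrix _ _ K) *ᵥ e0) '' univ,
        U.R {a : GL (Fin (k + 1)) K | a ∈ (univ : Set (GL (Fin (k + 1)) K)) ∧
          (a.val : Matrix _ _ K) *ᵥ e0 = b} =
          k * U.R (univ : Set K) + k * k * U.R (univ : Set K) := by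
      rintro b ⟨g0, -, hg0⟩
      have hg0' : (g0.val : Matrix _ _ K) *ᵥ e0 = b := hg0
      have hset : {a : GL (Fin (k + 1)) K | a ∈ (univ : Set (GL (Fin (k + 1)) K)) ∧
          (a.val : Matrix _ _ K) *ᵥ e0 = b} =
          (fun p : (Fin k → K) × GL (Fin k) K => g0 * bl 1 p.1 p.2) '' (univ ×ˢ univ) := by
        ext a
        constructor
        · rintro ⟨-, ha⟩
          have h1 : ((g0⁻¹ * a).val : Matrix _ _ K) *ᵥ e0 = e0 := by
            rw [Units.val_mul, ← mulVec_mulVec, ha, ← hg0', mulVec_mulVec, ← Units.val_mul,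
              inv_mul_cancel, Units.val_one, one_mulVec]
          have h2 : g0⁻¹ * a ∈ Pv (e0 (K := K)) := ⟨1, by rw [h1, one_smul]⟩
          obtain ⟨a', φ, B, h3⟩ := mem_Pv_e0.1 h2
          rw [h3, bl_val, blm_e0] at h1
          have h4 : (a' : K) = 1 := by
            have h5 := congrFun h1 0
            simpa [e0] using h5
          have h6 : a' = 1 := Units.ext h4
          refine ⟨(φ, B), ⟨mem_univ _, mem_univ _⟩, ?_⟩
          change g0 * bl 1 φ B = a
          rw [← h6, ← h3, mul_inv_cancel_left]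
        · rintro ⟨p, -, rfl⟩
          refine ⟨mem_univ _, ?_⟩
          change ((g0 * bl 1 p.1 p.2).val : Matrix _ _ K) *ᵥ e0 = b
          rw [Units.val_mul, ← mulVec_mulVec, bl_val, blm_e0, Units.val_one]
          exact hg0'
      rw [hset]
      have hDg : DFn U (fun p : (Fin k → K) × GL (Fin k) K => g0 * bl 1 p.1 p.2) := by
        refine DFn_glMul (DFn_const g0) (DFn_gl ?_)
        refine DFn_mat fun i j => ?_
        refine Fin.cases ?_ (fun i => ?_) i
        · refine Fin.cases ?_ (fun j => ?_) j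
          · exact DFn_const (1 : K)
          · exact DFn_comp (DFn_apply j) DFn_fst
        · refine Fin.cases ?_ (fun j => ?_) j
          · exact DFn_const (0 : K)
          · exact DFn_comp (DFn_entry i j) (DFn_comp DFn_val DFn_snd)
      rw [hB.inj (D_prod Ful.full Ful.full) hDg ⟨(0, 1), mem_univ _, mem_univ _⟩ ?_]
      · rw [hB.prod Ful.full Ful.full ⟨0, mem_univ _⟩ ⟨1, mem_univ _⟩, ih, (hV (K := K) k 0).1]
      · intro p _ q _ hpq
        have h1 : bl 1 p.1 p.2 = bl 1 q.1 q.2 := mul_left_cancel hpq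
        have h2 := bl_inj h1
        exact Prod.ext h2.2.1 h2.2.2
    rw [hB.fib_eq Ful.full hDf ⟨1, mem_univ _⟩ hfib, him, (hK (K := K)).2.2 k]
    ring

end Pool.Agent.H69.BCP
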